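import Pool.Agent.CYG.N.PsiL
import Pool.Agent.CYG.P.Mir
import Pool.Agent.CYG.P.Arc
import Pool.Agent.CYG.P.Planar
import Pool.Agent.CYG.A.Comm

/-!
# CYL for all L (note 3190): the family of one pair

`family1_of`: `Family1 n l psi0` from positivity (`FamPrimN`) and the fusion limit (`FusLim`).
-/

namespace Pool.Agent.CYL

open Complex Finset
open Pool.Agent.BEX

theorem U1_rev {n : ℕ} (hn : 1 ≤ n) (w : ℝ) (i : Fin (n + 1)) : U1 n w i.rev = - U1 n w i := by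
  unfold U1
  rw [Fin.val_rev]
  have hi := i.2
  by_cases h0 : (i : ℕ) = 0
  · rw [if_pos h0, if_neg (show ¬ n + 1 - ((i : ℕ) + 1) = 0 by omega), if_pos (show n + 1 - ((i : ℕ) + 1) = n by omega)]
  · by_cases h1 : (i : ℕ) = n
    · rw [if_neg h0, if_pos h1, if_pos (show n + 1 - ((i : ℕ) + 1) = 0 by omega), neg_neg]
    · rw [if_neg h0, if_neg h1, if_neg (show ¬ n + 1 - ((i : ℕ) + 1) = 0 by omega),
        if_neg (show ¬ n + 1 - ((i : ℕ) + 1) = n by omega), neg_zero]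

/-- The fusion limit of a family `psi`, `t` of joint eigenvectors for `U1 n w` (last field of `Family1`). -/
def FusLim (n l : ℕ) (psi0 : Sts n l → ℝ) (psi : ℝ → Sts (n + 1) l → ℝ) (t : ℝ → ℂ → ℂ) : Prop :=
  ∃ (ws : ℕ → ℝ) (psis : Sts (n + 1) l → ℝ) (ts : ℂ → ℂ) (c : ℝ), 0 < c ∧
    (∀ k, 0 ≤ ws k ∧ ws k < Real.pi / 8) ∧ Filter.Tendsto ws Filter.atTop (nhds (Real.pi / 8)) ∧
    (∀ m, Filter.Tendsto (fun k => psi (ws k) m) Filter.atTop (nhds (psis m))) ∧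
    IsPsi (U1 n (Real.pi / 8)) psis ts ∧ (∀ v, Filter.Tendsto (fun k => t (ws k) v) Filter.atTop (nhds (ts v))) ∧
    (0 < (ts lam).re ∧ (ts lam).im = 0) ∧
    ∀ u : ℂ, qf (U1 n (Real.pi / 8)) psis u = (c : ℂ) * sin u * qf (fun _ => 0) psi0 u

variable {n l : ℕ}

/-- mirror symmetry -/
theorem psiN_rv (hn : 1 ≤ n) [Nonempty (Kc (n + 1) l)] (h : FamPrimN n l) {w : ℝ} (h0 : 0 ≤ w)
    (h1 : w < Real.pi / 8) (m : Sts (n + 1) l) : psiN n l w (rl (rvE (n + 1) l) m) = psiN n l w m := by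
  have h2 := isPsi_psiN pla (comm (n + 1) l) h h0 h1
  have h3 := IsPsi.mir (U1_rev hn w) h2
  exact congrFun (eq_psiN pla h h0 h1 h3).1 m

theorem family1_of (hl : 1 ≤ l) (hn : l ≤ n) (h : FamPrimN n l) {psi0 : Sts n l → ℝ}
    (hf : FusLim n l psi0 (psiN n l) (tN n l)) : Nonempty (Family1 n l psi0) := by
  have hn1 : 1 ≤ n := by omega
  haveI : Nonempty (Kc (n + 1) l) := nonempty_Kc (by omega)
  refine ⟨{ psi := psiN n l, t := tN n l, isPsi := ?_, cont := ?_, par := ?_, arc := ?_, fus := hf }⟩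
  · intro w h0 h1
    exact isPsi_psiN pla (comm _ _) h h0 h1
  · intro m
    exact continuousOn_psiN pla (comm _ _) h m
  · intro w h0 h1 u
    exact qf_mir (U1_rev hn1 w) (psiN_rv hn1 h h0 h1) u
  · intro w h0 h1
    obtain ⟨m, a, b⟩ := exists_arcless (L := n + 1) (l := l) (by omega)
    exact ⟨m, a, psiN_pos h h0 h1 b⟩

end Pool.Agent.CYL
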