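import Pool.Agent.CYG.N.PosN
import Pool.Agent.CYG.N.Fam
import Pool.Agent.CYG.P.Rch

/-!
# CYL for all L (note 3190): positivity of the one pair family

`famPrimN_of`: `FamPrimN n l` from the case `w ≤ π / 16` (`PosOpL l 1 vsA (U1 n w)`); the other case is `posN`.
-/

namespace Pool.Agent.CYL

open Complex Finset
open Pool.Agent.BEX

theorem famPrimN_of {n l : ℕ} (hl : 1 ≤ l) (hn : l ≤ n)
    (hA : ∀ w : ℝ, 0 ≤ w → w ≤ Real.pi / 16 → PosOpL (L := n + 1) l 1 vsA (U1 n w)) : FamPrimN n l := by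
  have hr : ∀ m m' : Sts (n + 1) l, Cls m → Cls m' → Relation.ReflTransGen Stp m m' :=
    fun m m' h h' => rch hl (by omega) h h'
  exact ⟨fun w h0 h1 => realPrim_of_posL pla one_pos (hA w h0 h1) hr,
    fun w h0 h1 => realPrim_of_posL pla (Nat.succ_pos n) (posN (by omega) h0 h1) hr⟩

end Pool.Agent.CYL
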