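import Pool.Agent.CYG.Def
import Pool.Agent.CYG.P.Mv

/-!
# CYL for all L (note 3190): definitions

`n + 1` sites with the rapidities `U1 n w = (w, 0, .., 0, -w)`; at `w = π / 8` the pair (last site, site `0`) is fused
and `n` homogeneous sites remain. So `H(n)` implies `H(n + 1)`.
-/

namespace Pool.Agent.CYL

open Complex Finset
open Pool.Agent.BEX
open scoped ComplexOrder

/-- The rapidities `(w, 0, .., 0, -w)` on `n + 1` sites. -/
noncomputable def U1 (n : ℕ) (w : ℝ) (i : Fin (n + 1)) : ℂ :=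
  if (i : ℕ) = 0 then (w : ℂ) else if (i : ℕ) = n then -(w : ℂ) else 0

/-- Product of the transfer matrices `T(v; U)`, `v ∈ vs`. -/
noncomputable def Tfl {L l : ℕ} (vs : List ℂ) (U : Fin L → ℂ) (F : Sts L l → ℂ) : Sts L l → ℂ :=
  vs.foldr (fun v G => Tf v U G) F

/-- The parameters for `w ≤ π / 16`. -/
noncomputable def vsA : List ℂ := [((3 * Real.pi / 16 : ℝ) : ℂ)]

/-- The parameters for `w ≥ π / 16`: `λ` (`n - 1` times) and `w`. -/
noncomputable def vsB (n : ℕ) (w : ℝ) : List ℂ := List.replicate (n - 1) lam ++ [(w : ℂ)]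

/-- `∏ T(v; U)` maps nonnegative functions to nonnegative functions, and its `k`-th power realises the identity and all
moves `Stp` with positive weights. -/
structure PosOpL {L : ℕ} (l k : ℕ) (vs : List ℂ) (U : Fin L → ℂ) : Prop where
  nonneg : ∀ F : Sts L l → ℂ, (∀ m, 0 ≤ F m) → ∀ m, 0 ≤ Tfl vs U F m
  step : ∀ F : Sts L l → ℂ, (∀ m, 0 ≤ F m) → ∀ m m', (m = m' ∨ Stp m m') → 0 < F m' →
    0 < ((Tfl vs U)^[k] F) m

/-- The input of part B for one pair: `n + 1` sites, `U = (w, 0, .., 0, -w)`; `psi0` is the vector of the homogeneous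
system on `n` sites (for `n = l` it is not used). -/
structure Family1 (n l : ℕ) (psi0 : Sts n l → ℝ) where
  psi : ℝ → Sts (n + 1) l → ℝ
  t : ℝ → ℂ → ℂ
  isPsi : ∀ w : ℝ, 0 ≤ w → w < Real.pi / 8 → IsPsi (U1 n w) (psi w) (t w)
  cont : ∀ m, ContinuousOn (fun w => psi w m) (Set.Ico 0 (Real.pi / 8))
  /-- mirror symmetry -/
  par : ∀ w : ℝ, 0 ≤ w → w < Real.pi / 8 → ∀ u : ℂ,
    qf (U1 n w) (psi w) (-u) = (-1) ^ (n + 1 + l) * qf (U1 n w) (psi w) u
  /-- leading coefficient: mass of the arcless states -/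
  arc : ∀ w : ℝ, 0 ≤ w → w < Real.pi / 8 → ∃ m, Arcless m ∧ 0 < psi w m
  /-- fusion -/
  fus : ∃ (ws : ℕ → ℝ) (psis : Sts (n + 1) l → ℝ) (ts : ℂ → ℂ) (c : ℝ), 0 < c ∧
    (∀ n, 0 ≤ ws n ∧ ws n < Real.pi / 8) ∧ Filter.Tendsto ws Filter.atTop (nhds (Real.pi / 8)) ∧
    (∀ m, Filter.Tendsto (fun k => psi (ws k) m) Filter.atTop (nhds (psis m))) ∧
    IsPsi (U1 n (Real.pi / 8)) psis ts ∧ (∀ v, Filter.Tendsto (fun k => t (ws k) v) Filter.atTop (nhds (ts v))) ∧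
    (0 < (ts lam).re ∧ (ts lam).im = 0) ∧
    ∀ u : ℂ, qf (U1 n (Real.pi / 8)) psis u = (c : ℂ) * sin u * qf (fun _ => 0) psi0 u

end Pool.Agent.CYL
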