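import Pool.Agent.CYG.A.TqFin
import Pool.Agent.CYG.A.Star
import Pool.Agent.CYG.N.Def

/-!
# CYL for all L (note 3190): the T-Q relation for `U1 n w = (w, 0, .., 0, -w)`
-/

namespace Pool.Agent.CYL

open Complex
open Pool.Agent.BEX

namespace Tq

theorem U1_cases (n : ℕ) (w : ℝ) (i : Fin (n + 1)) :
    ∃ x : ℝ, U1 n w i = (x : ℂ) ∧ (x = 0 ∨ x = w ∨ x = -w) := by
  unfold U1
  split_ifs
  · exact ⟨w, rfl, Or.inr (Or.inl rfl)⟩
  · exact ⟨-w, by push_cast; ring, Or.inr (Or.inr rfl)⟩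
  · exact ⟨0, by simp, Or.inl rfl⟩

end Tq

/-- the T-Q relation for `U1` (= `skelN_tq`) -/
theorem tq1 {n l : ℕ} (hl : 1 ≤ l) {w : ℝ} (h0 : 0 ≤ w) (h1 : w < Real.pi / 8)
    (h2 : w ≠ Real.pi / 16) {psi : Sts (n + 1) l → ℝ} {t : ℂ → ℂ} (h : IsPsi (U1 n w) psi t) :
    TQ (n + 1) l (U1 n w) t (qf (U1 n w) psi) := by
  have hpi := Real.pi_pos
  refine Tq.tq_of (star_star _ _) hl (fun k hk i j => ?_) h
  have hk1 : (1 : ℝ) ≤ k := by exact_mod_cast (Finset.mem_Icc.1 hk).1
  obtain ⟨x, hx, hx'⟩ := Tq.U1_cases n w i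
  obtain ⟨y, hy, hy'⟩ := Tq.U1_cases n w j
  have pos2 : 0 < -(2 * w) + k * (Real.pi / 8) ∨ -(2 * w) + k * (Real.pi / 8) < 0 := by
    rcases lt_trichotomy (2 * w) (k * (Real.pi / 8)) with h3 | h3 | h3
    · exact Or.inl (by linarith)
    · exfalso
      rcases Nat.lt_or_ge k 2 with h4 | h4
      · have h5 : k = 1 := by
          have := (Finset.mem_Icc.1 hk).1
          omega
        rw [h5] at h3
        apply h2
        push_cast at h3
        linarith
      · have h5 : (2 : ℝ) ≤ k := by exact_mod_cast h4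
        nlinarith
    · exact Or.inr (by linarith)
  refine Tq.sin_nlam hk (x - y) (by rw [hx, hy]; push_cast; ring) ?_ ?_
  · have h3 : (Real.pi / 8) ≤ k * (Real.pi / 8) := by nlinarith
    rcases hx' with rfl | rfl | rfl <;> rcases hy' with rfl | rfl | rfl
    · exact Or.inl (by linarith)
    · exact Or.inl (by linarith)
    · exact Or.inl (by linarith)
    · exact Or.inl (by linarith)
    · exact Or.inl (by linarith)
    · exact Or.inl (by linarith)
    · exact Or.inl (by linarith)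
    · rwa [show -y - y = -(2 * y) by ring]
    · exact Or.inl (by linarith)
  · rw [abs_lt]
    rcases hx' with rfl | rfl | rfl <;> rcases hy' with rfl | rfl | rfl <;> constructor <;> linarith

end Pool.Agent.CYL
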