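import Pool.Agent.CYG.M.Base
import Pool.Agent.CYG.M.Br2
import Pool.Agent.CYG.N.IfN
import Pool.Agent.CYG.N.TqN
import Pool.Agent.CYG.N.FamPrim
import Pool.Agent.CYG.N.FusN
import Pool.Agent.CYG.A.TqMain
import Pool.Agent.CYL.BG.Main
import Pool.Agent.CYG.P.Fin
import Pool.Agent.CYG.D.Final
import Pool.Agent.CYG.D.G.Grow
import Pool.Agent.CYL.C.EnFin

/-!
# CYL for all L (note 3190): assembly from the proved parts

The structure `InN` lists the inputs from `P/PosA` (positivity for `v - U i ∈ [λ, 2 λ]`).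
-/

namespace Pool.Agent.CYL

open Filter Topology
open Pool.Agent.BEX

/-- The inputs (P3, positivity). -/
structure InN : Prop where
  zero : ∀ {L l : ℕ}, 1 ≤ l → l < L → RealPrim l lam (fun _ : Fin L => 0)
  lo : ∀ {n l : ℕ}, 1 ≤ l → l ≤ n → ∀ w : ℝ, 0 ≤ w → w ≤ Real.pi / 16 →
    PosOpL (L := n + 1) l 1 vsA (U1 n w)

namespace InN

variable (I : InN)

include I

theorem famPrim {n l : ℕ} (hl : 1 ≤ l) (hn : l ≤ n) : FamPrimN n l := famPrimN_of hl hn (I.lo hl hn)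

/-- the one pair family and its fusion limit -/
theorem family1 {n l : ℕ} (hl : 1 ≤ l) (hn : l ≤ n) (psi0 : Sts n l → ℝ)
    (h1 : ∀ m, ¬ Cls m → psi0 m = 0) (h2 : ∑ m, psi0 m = 1)
    (h3 : l < n → ∃ t, IsPsi (fun _ : Fin n => 0) psi0 t) : Nonempty (Family1 n l psi0) :=
  family1_of hl hn (I.famPrim hl hn) (fusN hl hn (I.famPrim hl hn) (I.zero hl) psi0 h1 h2 h3)

theorem hom {L l : ℕ} (hl : 1 ≤ l) (hL : l < L) :
    ∃ (psi : Sts L l → ℝ) (t : ℂ → ℂ), IsPsi (fun _ : Fin L => 0) psi t ∧ ∀ m, Cls m → 0 < psi m :=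
  hom_of hL (comm L l) (I.zero hl hL)

theorem hom_unique {L l : ℕ} (hl : 1 ≤ l) (hL : l < L) {psi psi' : Sts L l → ℝ} {t t' : ℂ → ℂ}
    (h : IsPsi (fun _ : Fin L => 0) psi t) (h' : IsPsi (fun _ : Fin L => 0) psi' t') : psi = psi' ∧ t = t' :=
  hom_unique_of hL (I.zero hl hL) h h'

/-- one site more -/
theorem HB_succ {l : ℕ} (hl : 1 ≤ l) {n : ℕ} (hn : l ≤ n)
    (ih : ∀ psi0 : Sts n l → ℝ, (∀ m, 0 ≤ psi0 m) → (∀ m, ¬ Cls m → psi0 m = 0) → ∑ m, psi0 m = 1 →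
      (l < n → ∃ t, IsPsi (fun _ : Fin n => 0) psi0 t) → B.HB n (n - l) (qf (fun _ => 0) psi0))
    (psi : Sts (n + 1) l → ℝ) (h3 : ∃ t, IsPsi (fun _ : Fin (n + 1) => 0) psi t) :
    B.HB (n + 1) (n + 1 - l) (qf (fun _ => 0) psi) := by
  obtain ⟨psi0, a0, a1, a2, a3⟩ : ∃ psi0 : Sts n l → ℝ, (∀ m, 0 ≤ psi0 m) ∧
      (∀ m, ¬ Cls m → psi0 m = 0) ∧ ∑ m, psi0 m = 1 ∧
      (l < n → ∃ t, IsPsi (fun _ : Fin n => 0) psi0 t) := by
    rcases hn.lt_or_eq with h | h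
    · obtain ⟨psi0, t, h5, -⟩ := I.hom hl h
      exact ⟨psi0, h5.nonneg, h5.supp, h5.sum, fun _ => ⟨t, h5⟩⟩
    · subst h
      obtain ⟨psi0, a0, a1, a2⟩ := exists_base hl
      exact ⟨psi0, a0, a1, a2, fun h => absurd h (lt_irrefl _)⟩
  obtain ⟨F⟩ := I.family1 hl hn psi0 a1 a2 a3
  obtain ⟨D, d1, d2, d3⟩ := exists_GData hl hn F
    (fun w h0 h1 h2 => tq1 hl h0 h1 h2 (F.isPsi w h0 h1))
  have e1 : 1 + (n - 1) = n := by omega
  have e2 : 2 * 1 + (n - 1) = n + 1 := by omega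
  have h5 := BG.main_BG D _ d3 le_rfl (n - l) (by omega) (by rw [e1]; exact ih psi0 a0 a1 a2 a3)
  rw [e2] at h5
  have hpi := Real.pi_pos
  have h6 := F.isPsi 0 le_rfl (by positivity)
  have h7 : U1 n 0 = fun _ => 0 := by
    funext i
    simp [U1]
  rw [h7] at h6
  obtain ⟨t, ht⟩ := h3
  obtain ⟨h8, -⟩ := I.hom_unique hl (by omega) h6 ht
  have h9 : D.q 0 = qf (fun _ => 0) psi := by
    funext u
    rw [d1 0 u, h7, h8]
  rwa [h9] at h5

/-- `H(L)` for every `L ≥ l`. -/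
theorem HB_all (l : ℕ) (hl : 1 ≤ l) (L : ℕ) (hL : l ≤ L) : ∀ psi : Sts L l → ℝ,
    (∀ m, 0 ≤ psi m) → (∀ m, ¬ Cls m → psi m = 0) → ∑ m, psi m = 1 →
    (l < L → ∃ t, IsPsi (fun _ : Fin L => 0) psi t) →
    B.HB L (L - l) (qf (fun _ => 0) psi) := by
  induction L, hL using Nat.le_induction with
  | base =>
    intro psi h0 h1 h2 h3
    simpa using HB_base psi h1 h2
  | succ n hn ih =>
    intro psi h0 h1 h2 h3
    exact HB_succ I hl hn ih psi (h3 (by omega))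

/-- D4 for the positive eigenvector -/
theorem D4 {L l : ℕ} (hl : 1 ≤ l) (hL : l < L) {psi : Sts L l → ℝ} {t : ℂ → ℂ}
    (h : IsPsi (fun _ : Fin L => 0) psi t) : ∃ Λ : ℝ,
      t lam = (Real.sin (3 * Real.pi / 8) : ℂ) ^ L * Λ ∧ 0 < Λ ∧
      Tendsto (fun N : ℕ => Real.log (Zc L l N).toReal / N) atTop (𝓝 (Real.log Λ)) ∧
      (∀ c : Fin l → Fin L, Function.Injective c →
        Tendsto (fun N : ℕ => Real.log (∑ e : Fin l → Fin L, fm N c e).toReal / N) atTop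
          (𝓝 (Real.log Λ))) ∧
      2 * (l : ℝ) * Real.log (1 / (2 * Real.cos (Real.pi / 8))) ≤ Real.log Λ ∧ Real.log Λ ≤ 0 :=
  G.GIn.final ⟨pla, (I.zero hl hL).prim, h⟩ hl (by omega) hL.le

theorem grow {L l : ℕ} (hl : 1 ≤ l) (hL : l < L) : ∃ a, Grow l L a := by
  obtain ⟨psi, t, h, -⟩ := I.hom hl hL
  obtain ⟨Λ, -, -, h1, h2, -⟩ := I.D4 hl hL h
  exact ⟨_, h1, h2⟩

/-- the limit along all `L` -/
theorem main {l : ℕ} (hl : 1 ≤ l) :
    ∃ z : ℕ → ℝ, (∀ L, l < L → Tendsto (fun N : ℕ => Real.log (Zc L l N).toReal / N) atTop (𝓝 (z L))) ∧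
      Tendsto (fun L : ℕ => (L : ℝ) * z L) atTop
        (𝓝 (-(Real.sqrt 3 * Real.pi * (9 * (l : ℝ) ^ 2 - 4) / 48))) := by
  have key : ∀ L, l < L → ∃ r : Roots l, r.L = L ∧
      Tendsto (fun N : ℕ => Real.log (Zc L l N).toReal / N) atTop (𝓝 r.elog) ∧
      2 * (l : ℝ) * Real.log (1 / (2 * Real.cos (Real.pi / 8))) ≤ r.elog ∧ r.elog ≤ 0 := by
    intro L hL
    obtain ⟨psi, t, h, -⟩ := I.hom hl hL
    have h1 := I.HB_all l hl L hL.le psi h.nonneg h.supp h.sum (fun _ => ⟨t, h⟩)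
    obtain ⟨r, r1, r2, r3⟩ := bridge2 hl (by omega : L = (L - l) + l) _ t h1
      (tq0 hl h) h.continuous_t
    obtain ⟨Lam, e1, e3, e2, -, e4, e5⟩ := I.D4 hl hL h
    have hs : 0 < Real.sin (3 * Real.pi / 8) := by
      apply Real.sin_pos_of_pos_of_lt_pi <;> nlinarith [Real.pi_pos]
    have h2 : r.elog = Real.log Lam := by
      rw [e1, norm_mul, norm_pow, Complex.norm_real, Complex.norm_real, Real.norm_of_nonneg hs.le,
        Real.norm_of_nonneg e3.le, mul_div_cancel_left₀ _ (by positivity)] at r3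
      rw [← r3, Real.log_exp]
    exact ⟨r, r1, h2 ▸ e2, h2 ▸ e4, h2 ▸ e5⟩
  have : Nonempty (Roots l) := ⟨(key (l + 1) (by omega)).choose⟩
  choose! r hr using key
  refine ⟨fun L => (r L).elog, fun L hL => (hr L hL).2.1, ?_⟩
  have h1 := Roots.part_C (fun k => r (k + (l + 1))) ?_ |2 * (l : ℝ) * Real.log (1 / (2 * Real.cos (Real.pi / 8)))| ?_
  · rw [← tendsto_add_atTop_iff_nat (l + 1)]
    refine h1.congr fun k => ?_
    rw [(hr (k + (l + 1)) (by omega)).1]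
  · have : (fun k => ((r (k + (l + 1))).L : ℝ)) = fun k : ℕ => ((k + (l + 1) : ℕ) : ℝ) := by
      funext k
      rw [(hr (k + (l + 1)) (by omega)).1]
    rw [this]
    exact tendsto_natCast_atTop_atTop.comp (tendsto_add_atTop_nat (l + 1))
  · intro k
    obtain ⟨-, -, h3, h4⟩ := hr (k + (l + 1)) (by omega)
    rw [abs_of_nonpos h4, abs_of_nonpos (h3.trans h4)]
    linarith

/-- The final statement, all circumferences (`last_all`). -/
theorem final :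
    (∀ L N : ℕ, 2 ≤ L → 1 ≤ N → Summable fun w : Plane.Cross L N => Plane.wt w.1) ∧
    ∃ κ : ℕ → ℝ,
      (∀ L : ℕ, 3 ≤ L → Tendsto (fun N : ℕ => -Real.log (Plane.P L N) / N) atTop (𝓝 (κ L))) ∧
      Tendsto (fun L : ℕ => (L : ℝ) * κ L) atTop (𝓝 (11 / 24 * Real.sqrt 3 * Real.pi)) :=
  last_all (fun _ hl _ hL => I.grow (by omega) hL) (fun _ hl => I.main (by omega))

end InN

end Pool.Agent.CYL
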