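import Pool.Agent.CYG.N.Main
import Pool.Agent.CYG.D.Cov.Tup

/-!
# CYL for all `L` and every number `l` of paths: the final theorem
-/

namespace Pool.Agent.CYL

open Pool.Agent.Hhelper14.SAW Pool.Agent.HHP Pool.Agent.QL Pool.Agent.BEX
open scoped ENNReal Topology
open Filter

theorem inj_md {L l : ℕ} (i : Fin L) {c : Fin l → ℤ} (hc : ∀ j k, j ≠ k → ¬ (L : ℤ) ∣ c j - c k) :
    Function.Injective fun j => md i (-c j) := by
  intro j k h
  by_contra hjk
  have h1 : md i (-c j) = md i (-c k) := h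
  rw [md_eq_same] at h1
  have h2 : -c j - -c k = -(c j - c k) := by ring
  rw [h2, dvd_neg] at h1
  exact hc j k hjk h1

/-- The probability that `l` paths from `l` different vertices of the side are disjoint. -/
theorem watermelon {l : ℕ} (hl : 1 ≤ l) : ∃ κ : ℕ → ℝ,
    (∀ L : ℕ, l < L → ∀ c : Fin l → ℤ, (∀ j k, j ≠ k → ¬ (L : ℤ) ∣ c j - c k) →
      Tendsto (fun N : ℕ => -Real.log (Plane.PD L N c) / N) atTop (𝓝 (κ L))) ∧
    Tendsto (fun L : ℕ => (L : ℝ) * κ L) atTop
      (𝓝 ((9 * (l : ℝ) ^ 2 - 5 * l - 4) / 48 * Real.sqrt 3 * Real.pi)) := by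
  obtain ⟨z, hz, hz'⟩ := inN.main hl
  obtain ⟨z1, hz1, hz1'⟩ := inN.main le_rfl
  refine ⟨fun L => l * z1 L - z L, fun L hL c hc => ?_, ?_⟩
  · obtain ⟨a, ha⟩ := inN.grow hl hL
    obtain ⟨a1, ha1⟩ := inN.grow le_rfl (show 1 < L by omega)
    have e := tendsto_nhds_unique (hz L hL) ha.1
    have e1 := tendsto_nhds_unique (hz1 L (by omega)) ha1.1
    set i : Fin L := ⟨0, by omega⟩ with hi
    have hinj := inj_md i hc
    have h := ha.2 _ hinj
    have hinj1 : Function.Injective (fun _ : Fin 1 => i) := Function.injective_of_subsingleton _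
    have h1 := ha1.2 _ hinj1
    have e2 : ∀ N, ∑ e : Fin 1 → Fin L, fm N (fun _ : Fin 1 => i) e = ∑ e : Fin L, cm N (ub N i) (ut e) := by
      intro N
      rw [← (Equiv.funUnique (Fin 1) (Fin L)).symm.sum_comp]
      refine Finset.sum_congr rfl fun e _ => ?_
      rw [fm_one]
      rfl
    simp_rw [e2] at h1
    show Tendsto (fun N : ℕ => -Real.log (Plane.PD L N c) / N) atTop (𝓝 (l * z1 L - z L))
    rw [e, e1]
    have h2 := (h1.const_mul (l : ℝ)).sub h
    refine h2.congr' ?_
    filter_upwards [eventually_ge_atTop 1] with N hN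
    have hcm : ∑ e : Fin L, cm N (ub N i) (ut e) ≠ ⊤ :=
      ENNReal.sum_ne_top.2 fun e _ => ne_top_of_le_ne_top ENNReal.one_ne_top (cm_cross_le N i e)
    have hfm : ∑ e, fm N (fun j => md i (-c j)) e ≠ ⊤ := sum_fm_fin N _
    have a1 := (Last.tsum_of (fun w : Plane.Cross L N => Last.wt_nonneg w.1)
      (final_cov1 L N (by omega) hN i) hcm).2
    have a2 := (Last.tsum_of (fun w : Plane.Disj L N c => Finset.prod_nonneg fun j _ => Last.wt_nonneg (w.1 j))
      (DC.cover_tup (by omega) N i c) hfm).2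
    have p1 : 0 < (∑ e : Fin L, cm N (ub N i) (ut e)).toReal := by
      rw [← e2]
      exact sum_fm_real_pos' hinj1 hN
    have p2 : 0 < (∑ e, fm N (fun j => md i (-c j)) e).toReal := sum_fm_real_pos' hinj hN
    unfold Plane.PD
    rw [a1, a2, Real.log_div p2.ne' (by positivity), Real.log_pow]
    ring
  · have h := (hz1'.const_mul (l : ℝ)).sub hz'
    refine (h.congr fun L => ?_).trans_eq ?_
    · ring
    · congr 1
      push_cast
      ring

end Pool.Agent.CYL
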