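import Pool.Agent.CYG.P.FusL
import Pool.Agent.BEX.ACup

/-!
# CYL/N (all L): the auxiliary line passes a fused pair, local identity

Lines `a` (auxiliary), `W` (kept), `V` (empty before the splitting): at the spectral parameter `λ`, crossing `V` (argument
`2λ`) and `W` (argument `0`) after the splitting of `W` is `sin 2λ sin 3λ` times the crossing of `W` (argument `λ`) before
the splitting.
-/

set_option linter.unusedVariables false

namespace Pool.Agent.CYL

open Pool.Agent.BEX Pool.Agent.BEX.Far Complex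

theorem xC_eq_xc : xC = xc := by
  have h1 := xC_cos
  have h2 := xc_cos
  have h3 := cos_lam_ne
  have h4 : (xC - xc) * (2 * cos lam) = 0 := by linear_combination h1 - h2
  have h5 : (2 * cos lam) ≠ 0 := mul_ne_zero two_ne_zero h3
  exact sub_eq_zero.1 ((mul_eq_zero.1 h4).resolve_right h5)

theorem kk_2lam' : kk (2 * lam) = kk lam := by rw [kk_2lam, kk_lam]

section

variable {ι : Type*} [DecidableEq ι]

theorem sw_emp {p q : ι} {M : St ι} (hp : M p = p) (hq : M q = q) : M.sw p q = M := by
  apply St.ext'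
  intro x
  have i5 := M.inv x
  rw [sw_ap']
  grind (splits := 40)

theorem sw_join {p q : ι} {M : St ι} (hp : M p = q) : M.sw p q = M := by
  apply St.ext'
  intro x
  have i5 := M.inv x
  have i6 := M.inv p
  rw [sw_ap']
  grind (splits := 40)

theorem sw_twice (p q : ι) (M : St ι) : (M.sw p q).sw p q = M := by
  rw [sw_eq_rl, sw_eq_rl, rl_trans]
  have : (Equiv.swap p q).trans (Equiv.swap p q) = Equiv.refl ι := by
    ext x
    simp
  rw [this, rl_refl]

theorem sw_of_jn (p q r s : ι) (M : St ι) :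
    (M.jn p q).sw r s = (M.sw r s).jn (Equiv.swap r s p) (Equiv.swap r s q) := by
  rw [sw_eq_rl, sw_eq_rl, rl_jn]

theorem sw_of_cp (p q r s : ι) (M : St ι) :
    (M.cp p q).sw r s = (M.sw r s).cp (Equiv.swap r s p) (Equiv.swap r s q) := by
  rw [sw_eq_rl, sw_eq_rl, rl_cp]

theorem sw_braid {a W V : ι} (haW : a ≠ W) (haV : a ≠ V) (hWV : W ≠ V) (M : St ι) :
    (M.sw a V).sw a W = (M.sw a W).sw W V := by
  rw [sw_eq_rl, sw_eq_rl, rl_trans, sw_eq_rl, sw_eq_rl, rl_trans]
  have : (Equiv.swap a V).trans (Equiv.swap a W) = (Equiv.swap a W).trans (Equiv.swap W V) := by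
    ext x
    simp only [Equiv.trans_apply, Equiv.swap_apply_def]
    grind
  rw [this]

theorem sw_three {a W V : ι} (haW : a ≠ W) (haV : a ≠ V) (hWV : W ≠ V) (M : St ι) :
    ((M.sw W V).sw a V).sw a W = M.sw a V := by
  rw [sw_braid haW haV hWV, sw_eq_rl, sw_eq_rl, sw_eq_rl, rl_trans, rl_trans, sw_eq_rl]
  have : (Equiv.swap W V).trans ((Equiv.swap a W).trans (Equiv.swap W V)) = Equiv.swap a V := by
    ext x
    simp only [Equiv.trans_apply, Equiv.swap_apply_def]
    grind
  rw [this]

variable {a W V : ι}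

/-- The auxiliary line passes the fused pair (second line exchanged with the auxiliary line). -/
theorem fuse_loc' (haW : a ≠ W) (haV : a ≠ V) (hWV : W ≠ V) (G : St ι → ℂ) (M : St ι) (hV : M V = V) :
    Sp W V (Rt a V (2 * lam) (fun n => G (n.sw a W))) M = Rt a W lam (Sp W V G) M := by
  have k0 : w8 (2 * lam) = 0 := w8_2lam
  have s1 : Equiv.swap a W a = W := Equiv.swap_apply_left _ _
  have s2 : Equiv.swap a W V = V := Equiv.swap_apply_of_ne_of_ne haV.symm hWV.symm
  have s3 : Equiv.swap a W W = a := Equiv.swap_apply_right _ _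
  have s4 : Equiv.swap a V W = W := Equiv.swap_apply_of_ne_of_ne haW.symm hWV
  have s5 : Equiv.swap a V V = a := Equiv.swap_apply_right _ _
  have s6 : Equiv.swap W V a = a := Equiv.swap_apply_of_ne_of_ne haW haV
  have s7 : Equiv.swap W V W = V := Equiv.swap_apply_left _ _
  by_cases ha : M a = a
  · by_cases hW : M W = W
    · -- both empty
      have e1 : (M.jn W V) a = a := by rw [jn_ap hW hV, if_neg haW, if_neg haV, ha]
      have e2 : (M.jn W V) V ≠ V := by rw [jn_ap hW hV, if_neg hWV.symm, if_pos rfl]; exact hWV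
      have e3 : (M.jn a W) W ≠ W := by rw [jn_ap ha hW, if_neg haW.symm, if_pos rfl]; exact haW
      have t1 : M.sw a W = M := sw_emp ha hW
      have t2 : (M.jn a V).sw a W = M.jn W V := by rw [sw_of_jn, s1, s2, t1]
      have t3 : (M.jn W V).sw a W = M.jn a V := by rw [sw_of_jn, s3, s2, t1]
      have t4 : ((M.jn W V).sw a V).sw a W = M.jn a W := by
        rw [sw_of_jn, s4, s5, sw_emp ha hV, sw_of_jn, s3, s1, t1]
      have t5 : (M.jn a W).sw W V = M.jn a V := by rw [sw_of_jn, s6, s7, sw_emp hW hV]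
      unfold Sp
      rw [if_pos hW, AY.Rt_ee ha hV rfl, AY.Rt_eo e1 e2 rfl, AY.Rt_ee ha hW rfl, if_pos hW, if_neg e3,
        t1, t2, t3, t4, t5, w4_2lam, w6_2lam, w2_2lam, kk_2lam', w4_lam, xC_eq_xc]
      ring
    · have e1 : (M.sw W V) a = a := by rw [sw_fix haW haV]; exact ha
      have e2 : (M.sw W V) V ≠ V := by rw [sw_ap']; grind
      have e3 : (M.sw W V) W = W := by rw [sw_ap']; grind
      have e4 : (M.sw a W) W = W := by rw [sw_ap']; grind
      have t2 : (M.jn a V).sw a W = (M.sw a W).jn W V := by rw [sw_of_jn, s1, s2]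
      have t3 : (M.sw W V).sw a W = M.sw W V := sw_emp e1 e3
      have t4 : ((M.sw W V).sw a V).sw a W = M := by rw [sw_three haW haV hWV, sw_emp ha hV]
      unfold Sp
      rw [if_neg hW, AY.Rt_ee ha hV rfl, AY.Rt_eo e1 e2 rfl, AY.Rt_eo ha hW rfl, if_neg hW, if_pos e4,
        t2, t3, t4, w4_2lam, w6_2lam, w2_2lam, kk_2lam', w6_lam, w2_lam, xC_eq_xc]
      ring
  · by_cases hW : M W = W
    · have e1 : (M.jn W V) a ≠ a := by rw [jn_ap hW hV, if_neg haW, if_neg haV]; exact ha
      have e2 : (M.jn W V) V ≠ V := by rw [jn_ap hW hV, if_neg hWV.symm, if_pos rfl]; exact hWV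
      have e3 : (M.jn W V) a ≠ V := by
        rw [jn_ap hW hV, if_neg haW, if_neg haV]
        intro h
        have := M.inv a
        rw [h, hV] at this
        exact haV this.symm
      have e4 : (M.sw a W) W ≠ W := by rw [sw_ap']; grind
      have t1 : (M.jn W V).cp a V = M.sw a W := by
        rw [cp_comm' e1 e2, (cu2 hWV haW.symm haV.symm M hW hV ha).1, sw_comm']
      have t2 : ((M.jn W V).cp a V).sw a W = M := by rw [t1, sw_twice]
      have t3 : (((M.jn W V).cp a V).jn a V).sw a W = M.jn W V := by rw [sw_of_jn, s1, s2, t2]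
      have t4 : (M.sw a V).sw a W = (M.sw a W).sw W V := sw_braid haW haV hWV M
      unfold Sp
      rw [if_pos hW, AY.Rt_oe ha hV rfl, AY.Rt_oo e1 e2 e3 rfl rfl rfl, AY.Rt_oe ha hW rfl, if_pos hW, if_neg e4,
        t2, t3, t4, w4_2lam, w6_2lam, w2_2lam, w8_2lam, w9_2lam, kk_2lam', w6_lam, w2_lam, xC_eq_xc]
      ring
    · have e1 : (M.sw W V) a ≠ a := by rw [Ne, sw_fix haW haV]; exact ha
      have e2 : (M.sw W V) V ≠ V := by
        have := M.inv W
        rw [sw_ap']; grind
      have t4 : (M.sw a V).sw a W = (M.sw a W).sw W V := sw_braid haW haV hWV M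
      by_cases hj : M a = W
      · have e3 : (M.sw W V) a = V := by
          rw [sw_ap']; grind
        have t1 : M.sw a W = M := sw_join hj
        unfold Sp
        rw [if_neg hW, AY.Rt_oe ha hV rfl, AY.Rt_jj e1 e2 e3, AY.Rt_jj ha hW hj, if_neg hW, t4, t1,
          w6_2lam, w2_2lam, w8_2lam, kk_2lam', w8_lam, xC_eq_xc]
        ring
      · have e3 : (M.sw W V) a ≠ V := by
          have i1 := M.inv a
          rw [sw_ap']; grind
        have e4 : (M.sw a W) W ≠ W := by
          have i1 := M.inv a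
          rw [sw_ap']; grind
        have e5 : (M.cp a W) W = W := cp_q ha hW
        have e6 : (M.cp a W) a = a := cp_p ha hW
        have e7 : (M.cp a W) V = V := (cp_fix ha hW haW hj haV.symm hWV.symm).2 hV
        have t1 : (M.sw W V).cp a V = M.cp a W := by
          have := sw_of_cp a W W V M
          rw [s6, s7, sw_emp e5 e7] at this
          exact this.symm
        have t2 : ((M.sw W V).cp a V).sw a W = M.cp a W := by rw [t1, sw_emp e6 e5]
        have t3 : (((M.sw W V).cp a V).jn a V).sw a W = (M.cp a W).jn W V := by rw [sw_of_jn, s1, s2, t2]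
        unfold Sp
        rw [if_neg hW, AY.Rt_oe ha hV rfl, AY.Rt_oo e1 e2 e3 rfl rfl rfl, AY.Rt_oo ha hW hj rfl rfl rfl, if_neg e4,
          if_pos e5, t2, t3, t4, w4_2lam, w6_2lam, w2_2lam, w8_2lam, w9_2lam, kk_2lam', w8_lam, w9_lam, w4_lam, xC_eq_xc]
        ring

/-- The auxiliary line passes the fused pair. -/
theorem fuse_loc (haW : a ≠ W) (haV : a ≠ V) (hWV : W ≠ V) (G : St ι → ℂ) (M : St ι) (hV : M V = V) :
    Sp W V (Rt a V (2 * lam) (Rt a W 0 G)) M = sin (2 * lam) * sin (3 * lam) * Rt a W lam (Sp W V G) M := by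
  rw [← fuse_loc' haW haV hWV G M hV, ← Sp_smul]
  congr 1
  funext n
  have h1 : Rt a W 0 G = (sin (2 * lam) * sin (3 * lam)) • fun n => G (n.sw a W) := by
    funext k
    rw [Rt_zero]
    rfl
  rw [h1, Rt_smul]
  rfl

end

end Pool.Agent.CYL
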