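import Pool.Agent.CYG.N.FuT
import Pool.Agent.CYG.P.FusB

/-!
# CYL/N (all L): the vector on `n` sites of a joint eigenvector with the fused pair

`y1 psi m = psi (up1 m)` times `1` or `1 / xc`: if `psi` is an eigenvector of `T(λ; λ, 0, .., 0, -λ)` with an eigenvalue
`≠ 0` then `∑ psi F = ∑ y1 (D1 F)`, and `y1` is an eigenvector of the homogeneous `T(λ; 0)` on `n` sites.
-/

set_option linter.unusedVariables false

namespace Pool.Agent.CYL

open Pool.Agent.BEX Pool.Agent.BEX.Far Complex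
open scoped ComplexOrder

variable {n l : ℕ}

/-! ### the sector -/

theorem up1_inr (m : Sts n l) (j : Fin l) : up1 m (Sum.inr j) = i1 (m (Sum.inr j)) :=
  Db.upf_apply i1_inj m (Sum.inr j)

theorem up1_inl (m : Sts n l) (i : Fin n) : up1 m (Sum.inl i.castSucc) = i1 (m (Sum.inl i)) :=
  Db.upf_apply i1_inj m (Sum.inl i)

theorem chi_up1 {m : Sts n l} : Chi (up1 m) ↔ Chi m := by
  constructor
  · intro h j
    obtain ⟨i, hi⟩ := h j
    rw [up1_inr] at hi
    rcases hx : m (Sum.inr j) with x | x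
    · exact ⟨x, rfl⟩
    · rw [hx] at hi
      simp [i1] at hi
  · intro h j
    obtain ⟨i, hi⟩ := h j
    rw [up1_inr, hi]
    exact ⟨_, rfl⟩

theorem jnd_up1 {m : Sts n l} {i k : Fin n} (h : Jnd m i k) : Jnd (up1 m) i.castSucc k.castSucc := by
  obtain ⟨h1, h2⟩ := h
  refine ⟨fun h => h1 (Fin.castSucc_injective n h), ?_⟩
  rcases h2 with h2 | ⟨j, j', hj, h3, h4⟩
  · left
    rw [up1_inl, h2]
    rfl
  · right
    refine ⟨j, j', hj, ?_, ?_⟩
    · rw [up1_inl, h3]; rfl
    · rw [up1_inl, h4]; rfl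

theorem cls_up1 {m : Sts n l} (h : Cls (up1 m)) : Cls m := by
  refine ⟨chi_up1.1 h.1, nc_pull (φ := Fin.castSucc) (fun _ _ h => Fin.castSucc_lt_castSucc_iff.2 h) ?_ ?_ h.2⟩
  · intro i k e
    rw [up1_inl, e]
    rfl
  · intro i j e
    rw [up1_inl, e]
    rfl

theorem arcless_up1 {m : Sts n l} (h : Arcless m) : Arcless (up1 m) := by
  refine ⟨chi_up1.2 h.1, fun i k hik => ?_⟩
  by_cases hi : ∃ a : Lb n l, i1 a = Sum.inl i
  · obtain ⟨a, ha⟩ := hi
    rcases a with a | a
    · have ha' : a.castSucc = i := Sum.inl_injective ha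
      subst ha'
      rw [up1_inl] at hik
      rcases hx : m (Sum.inl a) with x | x
      · rw [hx] at hik
        have h1 : x.castSucc = k := Sum.inl_injective hik
        rw [← h1, h.2 a x hx]
      · rw [hx] at hik
        simp [i1] at hik
    · simp [i1] at ha
  · have h1 := i1_out hi
    rw [h1, up1_V] at hik
    rw [← h1] at hik
    exact Sum.inl_injective hik

theorem Sup_D1 {F : Sts (n + 1) l → ℂ} (h : Sup F) : Sup (D1 F) := by
  intro m hm
  exact Sup_Sp (a := 0) (b := Fin.last n) h _ (fun hc => hm (chi_up1.1 hc))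

/-! ### the extension -/

/-- `1` if the line `W` is empty, otherwise `1 / xc`. -/
noncomputable def cW (M : Sts (n + 1) l) : ℝ :=
  if M (sW n l) = sW n l then 1 else (Real.sqrt 2 * Real.sin (Real.pi / 8))⁻¹

theorem xcr_pos : 0 < Real.sqrt 2 * Real.sin (Real.pi / 8) :=
  mul_pos (by positivity) (Real.sin_pos_of_pos_of_lt_pi (by positivity) (by linarith [Real.pi_pos]))

theorem cW_pos (M : Sts (n + 1) l) : 0 < cW M := by
  unfold cW
  split_ifs
  · exact one_pos
  · exact inv_pos.2 xcr_pos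

/-- A function on the states of `n + 1` sites with given `D1`. -/
noncomputable def E1 (g : Sts n l → ℂ) (M : Sts (n + 1) l) : ℂ := ∑ m, if up1 m = M then (cW M : ℂ) * g m else 0

theorem E1_up1 (g : Sts n l → ℂ) (m : Sts n l) : E1 g (up1 m) = (cW (up1 m) : ℂ) * g m := by
  unfold E1
  rw [Finset.sum_eq_single m]
  · rw [if_pos rfl]
  · intro b _ hb
    rw [if_neg fun h => hb (up1_inj h)]
  · intro h
    exact absurd (Finset.mem_univ m) h

theorem E1_out (g : Sts n l → ℂ) {M : Sts (n + 1) l} (h : M (sV n l) ≠ sV n l) : E1 g M = 0 := by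
  unfold E1
  refine Finset.sum_eq_zero fun m _ => ?_
  rw [if_neg]
  intro he
  rw [← he] at h
  exact h (up1_V m)

theorem D1_E1 (hn : 1 ≤ n) (g : Sts n l → ℂ) : D1 (E1 g) = g := by
  funext m
  have hV := up1_V m
  have hWV := sWV (l := l) hn
  unfold D1 Sp
  by_cases hW : up1 m (sW n l) = sW n l
  · have h1 : ((up1 m).jn (sW n l) (sV n l)) (sV n l) ≠ sV n l := by
      rw [jn_ap hW hV, if_neg hWV.symm, if_pos rfl]
      exact hWV
    rw [if_pos hW, E1_up1, E1_out g h1]
    unfold cW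
    rw [if_pos hW]
    push_cast
    ring
  · have h1 : ((up1 m).sw (sW n l) (sV n l)) (sV n l) ≠ sV n l := by
      have := (up1 m).inv (sW n l)
      rw [sw_ap']
      grind
    rw [if_neg hW, E1_up1, E1_out g h1]
    unfold cW
    rw [if_neg hW]
    have h2 : (xc : ℂ) ≠ 0 := xc_ne
    have h3 : (((Real.sqrt 2 * Real.sin (Real.pi / 8))⁻¹ : ℝ) : ℂ) = xc⁻¹ := by
      unfold xc
      push_cast
      rfl
    rw [h3]
    field_simp
    ring

theorem Sup_E1 {g : Sts n l → ℂ} (h : Sup g) : Sup (E1 g) := by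
  intro M hM
  by_cases hV : M (sV n l) = sV n l
  · obtain ⟨m, rfl⟩ := up1_surj hV
    rw [E1_up1, h m (fun hc => hM (chi_up1.2 hc)), mul_zero]
  · exact E1_out g hV

theorem D1_sub (F G : Sts (n + 1) l → ℂ) (m : Sts n l) : D1 (fun M => F M - G M) m = D1 F m - D1 G m := by
  unfold D1 Sp
  split_ifs <;> ring

theorem Tf_zero' (v : ℂ) (U : Fin (n + 1) → ℂ) : Tf (l := l) v U (fun _ => 0) = fun _ => 0 := by
  have h : Tf (l := l) v U ((0 : ℂ) • (fun _ => 0)) = (0 : ℂ) • Tf v U (fun _ => 0) := by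
    unfold Tf
    exact Tt_smul _ _ _ _ _
  have e : ((0 : ℂ) • (fun _ : Sts (n + 1) l => (0 : ℂ))) = fun _ => 0 := by
    funext m
    simp
  rw [e] at h
  rw [h]
  funext m
  simp

/-! ### the vector on `n` sites -/

/-- the vector on `n` sites -/
noncomputable def y1 (psi : Sts (n + 1) l → ℝ) (m : Sts n l) : ℝ := psi (up1 m) * cW (up1 m)

theorem y1_nonneg {psi : Sts (n + 1) l → ℝ} (h : ∀ m, 0 ≤ psi m) (m : Sts n l) : 0 ≤ y1 psi m :=
  mul_nonneg (h _) (cW_pos _).le

theorem y1_supp {psi : Sts (n + 1) l → ℝ} (h : ∀ m, ¬ Cls m → psi m = 0) (m : Sts n l) (hm : ¬ Cls m) :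
    y1 psi m = 0 := by
  unfold y1
  rw [h _ fun hc => hm (cls_up1 hc), zero_mul]

theorem sum_E1 (psi : Sts (n + 1) l → ℝ) (g : Sts n l → ℂ) :
    ∑ M, (psi M : ℂ) * E1 g M = ∑ m, (y1 psi m : ℂ) * g m := by
  unfold E1
  simp only [Finset.mul_sum]
  rw [Finset.sum_comm]
  refine Finset.sum_congr rfl fun m _ => ?_
  rw [Finset.sum_eq_single (up1 m)]
  · rw [if_pos rfl]
    unfold y1
    push_cast
    ring
  · intro b _ hb
    rw [if_neg fun h => hb h.symm, mul_zero]
  · intro h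
    exact absurd (Finset.mem_univ _) h

variable {psi : Sts (n + 1) l → ℝ} {Lam : ℂ}

/-- the state `psi` sees only `D1 F` -/
theorem y1_sum (hn : 1 ≤ n) (hL : Lam ≠ 0)
    (he : ∀ F : Sts (n + 1) l → ℂ, Sup F →
      ∑ m, (psi m : ℂ) * Tf lam (U1 n (Real.pi / 8)) F m = Lam * ∑ m, (psi m : ℂ) * F m)
    {F : Sts (n + 1) l → ℂ} (hF : Sup F) :
    ∑ m, (psi m : ℂ) * F m = ∑ m, (y1 psi m : ℂ) * D1 F m := by
  set G : Sts (n + 1) l → ℂ := fun M => F M - E1 (D1 F) M with hG
  have hGS : Sup G := by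
    intro M hM
    rw [hG]
    simp only [hF M hM, Sup_E1 (Sup_D1 hF) M hM, sub_zero]
  have h1 : D1 G = D1 (fun _ => 0) := by
    funext m
    rw [hG, D1_sub, D1_E1 hn]
    unfold D1 Sp
    split_ifs <;> ring
  have h2 := he G hGS
  rw [Tf_dep hn h1, Tf_zero'] at h2
  have h3 : ∑ m, (psi m : ℂ) * G m = 0 := by
    have : Lam * ∑ m, (psi m : ℂ) * G m = 0 := by
      rw [← h2]
      simp
    exact (mul_eq_zero.1 this).resolve_left hL
  rw [← sum_E1, ← sub_eq_zero, ← Finset.sum_sub_distrib, ← h3]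
  refine Finset.sum_congr rfl fun m _ => ?_
  rw [hG]
  ring

theorem c1_ne : sin (2 * lam) * sin (3 * lam) ≠ 0 := by
  have h1 := two_sq
  have h2 : sin (2 * lam) ≠ 0 := by
    intro h
    rw [h] at h1
    simp at h1
  rw [sin3_eq_cos]
  exact mul_ne_zero h2 cos_lam_ne

/-- eigenvector on `n` sites -/
theorem y1_hom (hn : 1 ≤ n) (hsup : ∀ F : Sts (n + 1) l → ℂ, Sup F → Sup (Tf lam (U1 n (Real.pi / 8)) F))
    (hL : Lam ≠ 0)
    (he : ∀ F : Sts (n + 1) l → ℂ, Sup F →
      ∑ m, (psi m : ℂ) * Tf lam (U1 n (Real.pi / 8)) F m = Lam * ∑ m, (psi m : ℂ) * F m)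
    {g : Sts n l → ℂ} (hg : Sup g) :
    ∑ m, (y1 psi m : ℂ) * Tf lam (fun _ => 0) g m =
      (Lam / (sin (2 * lam) * sin (3 * lam))) * ∑ m, (y1 psi m : ℂ) * g m := by
  have h0 : Sup (E1 g) := Sup_E1 hg
  have h1 := he (E1 g) h0
  rw [y1_sum hn hL he h0, y1_sum hn hL he (hsup _ h0), D1_E1 hn] at h1
  have h2 : ∀ m, D1 (Tf lam (U1 n (Real.pi / 8)) (E1 g)) m =
      sin (2 * lam) * sin (3 * lam) * Tf lam (fun _ => 0) g m := by
    intro m
    rw [D1_Tf hn, D1_E1 hn]
  have h3 : ∑ m, (y1 psi m : ℂ) * D1 (Tf lam (U1 n (Real.pi / 8)) (E1 g)) m =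
      sin (2 * lam) * sin (3 * lam) * ∑ m, (y1 psi m : ℂ) * Tf lam (fun _ => 0) g m := by
    rw [Finset.mul_sum]
    refine Finset.sum_congr rfl fun m _ => ?_
    rw [h2]
    ring
  rw [h3] at h1
  have h4 := c1_ne
  rw [div_mul_eq_mul_div, eq_div_iff h4, ← h1]
  ring

/-! ### the product functional -/

/-- the local factor -/
noncomputable def fa {L : ℕ} (al : Fin L → ℂ) (M : Sts L l) (i : Fin L) : ℂ :=
  if M (Sum.inl i) = Sum.inl i then al i else bb

theorem Oa_eq {L : ℕ} (al : Fin L → ℂ) {M : Sts L l} (h : Chi M) : Oa al M = ∏ i, fa al M i := if_pos h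

theorem prod_split {k : ℕ} (f : Fin (k + 2) → ℂ) :
    ∏ i, f i = f 0 * (∏ i : Fin k, f i.castSucc.succ) * f (Fin.last (k + 1)) := by
  rw [Fin.prod_univ_succ, Fin.prod_univ_castSucc]
  simp only [Fin.succ_last]
  ring

theorem bb_sq : bb ^ 2 = xc / 2 := by
  unfold bb xc
  rw [← ofReal_pow, Real.sq_sqrt (div_nonneg xcr_pos.le (by norm_num))]
  push_cast
  ring

theorem sin_pm (u : ℂ) : sin (u - lam) * sin (u + lam) + xc * bb ^ 2 = sin u ^ 2 := by
  have h1 : xc * bb ^ 2 = sin lam ^ 2 := by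
    have h2 := xc_eq
    have h3 := two_sq
    rw [bb_sq, h2]
    linear_combination (sin lam ^ 2) * h3
  rw [h1, sin_add, sin_sub]
  have h4 := sin_sq_add_cos_sq u
  have h5 := sin_sq_add_cos_sq lam
  linear_combination (sin u ^ 2) * h5 - (sin lam ^ 2) * h4

theorem sin_pm' (u : ℂ) : xc * (sin (u + lam) + sin (u - lam)) = sin u := by
  have h := xc_cos
  rw [sin_add, sin_sub]
  linear_combination (sin u) * h

theorem D1_Os (hn : 1 ≤ n) (u : ℂ) (m : Sts n l) :
    D1 (Os (U1 n (Real.pi / 8)) u) m = sin u * Os (fun _ => 0) u m := by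
  by_cases hc : Chi m
  swap
  · rw [Sup_D1 (F := Os (U1 n (Real.pi / 8)) u) (fun _ hm => if_neg hm) m hc]
    unfold Os Oa
    rw [if_neg hc, mul_zero]
  have hC := (chi_up1 (m := m)).2 hc
  have hV := up1_V m
  have hWV := sWV (l := l) hn
  obtain ⟨k, rfl⟩ : ∃ k, n = k + 1 := ⟨n - 1, by omega⟩
  set al : Fin (k + 1 + 1) → ℂ := fun i => sin (u - U1 (k + 1) (Real.pi / 8) i) with hal
  have a0 : al 0 = sin (u - lam) := by
    rw [hal]
    simp only [U1, Fin.val_zero, if_true, lam_coe]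
  have a1 : al (Fin.last (k + 1)) = sin (u + lam) := by
    rw [hal]
    simp only [U1, Fin.val_last, lam_coe]
    rw [if_neg (by omega), if_pos trivial, sub_neg_eq_add]
  have a2 : ∀ i : Fin k, al i.castSucc.succ = sin u := by
    intro i
    rw [hal]
    have := i.2
    simp only [U1, Fin.val_succ, Fin.val_castSucc]
    rw [if_neg (by omega), if_neg (by omega), sub_zero]
  -- the middle factors
  set R : ℂ := ∏ i : Fin k, (if up1 m (Sum.inl i.castSucc.succ) = Sum.inl i.castSucc.succ then sin u else bb) with hR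
  have hne0 : ∀ i : Fin k, (Sum.inl i.castSucc.succ : Lb (k + 1 + 1) l) ≠ sW (k + 1) l := by
    intro i h
    exact Fin.succ_ne_zero _ (Sum.inl_injective h)
  have hneV : ∀ i : Fin k, (Sum.inl i.castSucc.succ : Lb (k + 1 + 1) l) ≠ sV (k + 1) l := by
    intro i h
    have h1 := congrArg Fin.val (Sum.inl_injective h)
    have := i.2
    simp at h1
    omega
  have hbig : ∀ M : Sts (k + 1 + 1) l, Chi M → (∀ i : Fin k, (M (Sum.inl i.castSucc.succ) = Sum.inl i.castSucc.succ ↔
      up1 m (Sum.inl i.castSucc.succ) = Sum.inl i.castSucc.succ)) →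
      Oa al M = (if M (sW (k + 1) l) = sW (k + 1) l then sin (u - lam) else bb) * R *
        (if M (sV (k + 1) l) = sV (k + 1) l then sin (u + lam) else bb) := by
    intro M hM hi
    rw [Oa_eq _ hM, prod_split, hR]
    congr 1
    · congr 1
      · unfold fa
        rw [a0]
        rfl
      · refine Finset.prod_congr rfl fun i _ => ?_
        unfold fa
        rw [a2]
        simp only [hi i]
    · unfold fa
      rw [a1]
      rfl
  have hsmall : Os (fun _ => 0) u m = (if up1 m (sW (k + 1) l) = sW (k + 1) l then sin u else bb) * R := by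
    unfold Os
    rw [Oa_eq _ hc, Fin.prod_univ_succ, hR]
    have key : ∀ i : Fin (k + 1), (m (Sum.inl i) = Sum.inl i ↔
        up1 m (Sum.inl i.castSucc) = Sum.inl i.castSucc) := by
      intro i
      rw [up1_inl]
      constructor
      · intro h
        rw [h]
        rfl
      · intro h
        exact i1_inj h
    congr 1
    · unfold fa
      simp only [sub_zero, key 0]
      rfl
    · refine Finset.prod_congr rfl fun i _ => ?_
      unfold fa
      simp only [sub_zero, key i.succ, Fin.succ_castSucc]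
  have eD : Os (l := l) (U1 (k + 1) (Real.pi / 8)) u = Oa al := rfl
  rw [hsmall, eD]
  unfold D1 Sp
  by_cases hW : up1 m (sW (k + 1) l) = sW (k + 1) l
  · have hJ : ∀ x, x ≠ sW (k + 1) l → x ≠ sV (k + 1) l →
        ((up1 m).jn (sW (k + 1) l) (sV (k + 1) l)) x = up1 m x := fun x h1 h2 => by
      rw [jn_ap hW hV, if_neg h1, if_neg h2]
    have hJC : Chi ((up1 m).jn (sW (k + 1) l) (sV (k + 1) l)) := by
      intro j
      obtain ⟨i, hi⟩ := hC j
      exact ⟨i, by rw [hJ _ (by simp [sW]) (by simp [sV]), hi]⟩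
    have e1 : ((up1 m).jn (sW (k + 1) l) (sV (k + 1) l)) (sW (k + 1) l) ≠ sW (k + 1) l := by
      rw [jn_ap hW hV, if_pos rfl]
      exact hWV.symm
    have e2 : ((up1 m).jn (sW (k + 1) l) (sV (k + 1) l)) (sV (k + 1) l) ≠ sV (k + 1) l := by
      rw [jn_ap hW hV, if_neg hWV.symm, if_pos rfl]
      exact hWV
    rw [if_pos hW, hbig _ hC (fun i => Iff.rfl), hbig _ hJC (fun i => by rw [hJ _ (hne0 i) (hneV i)]),
      if_pos hW, if_pos hV, if_neg e1, if_neg e2, if_pos hW]
    linear_combination R * sin_pm u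
  · have hJf : ∀ x, x ≠ sW (k + 1) l → x ≠ sV (k + 1) l →
        (((up1 m).sw (sW (k + 1) l) (sV (k + 1) l)) x = x ↔ up1 m x = x) := fun x h1 h2 =>
      Db.fix_sw h1.symm h2.symm
    have hJC : Chi ((up1 m).sw (sW (k + 1) l) (sV (k + 1) l)) := by
      intro j
      obtain ⟨i, hi⟩ := hC j
      have h0 : Equiv.swap (sW (k + 1) l) (sV (k + 1) l) (Sum.inr j) = Sum.inr j :=
        Equiv.swap_apply_of_ne_of_ne (by simp [sW]) (by simp [sV])
      have h1 : ((up1 m).sw (sW (k + 1) l) (sV (k + 1) l)) (Sum.inr j) =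
          Equiv.swap (sW (k + 1) l) (sV (k + 1) l) (Sum.inl i) := by
        rw [sw_ap, h0, hi]
      rw [h1, Equiv.swap_apply_def]
      split_ifs
      · exact ⟨_, rfl⟩
      · exact ⟨_, rfl⟩
      · exact ⟨i, rfl⟩
    have e1 : ((up1 m).sw (sW (k + 1) l) (sV (k + 1) l)) (sW (k + 1) l) = sW (k + 1) l := by
      rw [sw_ap']
      grind
    have e2 : ((up1 m).sw (sW (k + 1) l) (sV (k + 1) l)) (sV (k + 1) l) ≠ sV (k + 1) l := by
      have := (up1 m).inv (sW (k + 1) l)
      rw [sw_ap']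
      grind
    rw [if_neg hW, hbig _ hC (fun i => Iff.rfl), hbig _ hJC (fun i => hJf _ (hne0 i) (hneV i)),
      if_neg hW, if_pos hV, if_pos e1, if_neg e2, if_neg hW]
    linear_combination (bb * R) * sin_pm' u

end Pool.Agent.CYL
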