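import Pool.Agent.CYG.N.AsmN
import Pool.Agent.CYG.P.PosA

/-!
# CYL for all L: the final theorem
-/

namespace Pool.Agent.CYL

open Filter Topology
open Pool.Agent.BEX

theorem posA_U1 {n l : ℕ} (hn : 1 ≤ n) {w : ℝ} (h0 : 0 ≤ w) (h1 : w ≤ Real.pi / 16) :
    PosOpL (L := n + 1) l 1 vsA (U1 n w) := by
  have hpi := Real.pi_pos
  have hc : ∀ i : Fin (n + 1), ∃ x : ℝ, U1 n w i = (x : ℂ) ∧ (x = 0 ∨ x = w ∨ x = -w) := Tq.U1_cases n w
  choose r hr hr' using hc
  have h := posA (L := n + 1) l (by omega) (v := 3 * Real.pi / 16) (U := U1 n w) (r := r) hr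
    (fun i => by rcases hr' i with e | e | e <;> rw [e] <;> linarith)
    (fun i => by rcases hr' i with e | e | e <;> rw [e] <;> linarith)
  have e : Tfl (L := n + 1) (l := l) vsA (U1 n w) = Tf ((3 * Real.pi / 16 : ℝ) : ℂ) (U1 n w) := rfl
  refine ⟨fun F hF m => ?_, fun F hF m m' hm hm' => ?_⟩
  · rw [e]
    exact h.nonneg F hF m
  · rw [e]
    exact h.step F hF m m' hm hm'

theorem realPrim_zero {L l : ℕ} (hl : 1 ≤ l) (hL : l < L) : RealPrim l lam (fun _ : Fin L => 0) := by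
  have hpi := Real.pi_pos
  have h := posA (L := L) l (by omega) (v := Real.pi / 8) (U := fun _ : Fin L => (0 : ℂ))
    (r := fun _ => 0) (fun i => by simp) (fun i => by linarith) (fun i => by linarith)
  have e : ((Real.pi / 8 : ℝ) : ℂ) = lam := lam_ofReal'.symm
  rw [e] at h
  exact realPrim_of_pos pla one_pos h
    (fun m m' hm hm' => rch hl hL hm hm')

theorem inN : InN := ⟨fun hl hL => realPrim_zero hl hL, fun hl hn w h0 h1 => posA_U1 (by omega) h0 h1⟩

/-- **The final theorem**: `-log P(L, N) / N → κ L` for every `L ≥ 3`, and `L κ L → (11 / 24) √3 π`. -/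
theorem final_all :
    (∀ L N : ℕ, 2 ≤ L → 1 ≤ N → Summable fun w : Plane.Cross L N => Plane.wt w.1) ∧
    ∃ κ : ℕ → ℝ,
      (∀ L : ℕ, 3 ≤ L → Tendsto (fun N : ℕ => -Real.log (Plane.P L N) / N) atTop (𝓝 (κ L))) ∧
      Tendsto (fun L : ℕ => (L : ℝ) * κ L) atTop (𝓝 (11 / 24 * Real.sqrt 3 * Real.pi)) := inN.final

end Pool.Agent.CYL
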