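import Pool.Agent.CYG.N.TriLoc

/-!
# CYL for all L (note 3190): the triangle lemma, for all states
-/

namespace Pool.Agent.CYL

open Complex Finset Function
open Pool.Agent.BEX Pool.Agent.BEX.AY
open scoped ComplexOrder

/-! ### the weights -/

theorem lam_ofReal' : lam = ((Real.pi / 8 : ℝ) : ℂ) := by unfold lam; push_cast; ring

/-- `lam` real -/
noncomputable def lr : ℝ := Real.pi / 8

theorem lam_lr : lam = (lr : ℂ) := lam_ofReal'

theorem lr_pos : 0 < lr := by unfold lr; positivity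

theorem lr8 : 8 * lr = Real.pi := by unfold lr; ring

theorem kk_re (x : ℝ) : kk (x : ℂ) = ((Real.sin (2 * lr + x) * Real.sin (3 * lr + x) : ℝ) : ℂ) := by
  unfold kk; rw [lam_lr]; push_cast; rfl
theorem w2_re (x : ℝ) : w2 (x : ℂ) = ((Real.sin (2 * lr) * Real.sin (3 * lr - x) : ℝ) : ℂ) := by
  unfold w2; rw [lam_lr]; push_cast; rfl
theorem w4_re (x : ℝ) : w4 (x : ℂ) = ((Real.sin (2 * lr) * Real.sin x : ℝ) : ℂ) := by
  unfold w4; rw [lam_lr]; push_cast; rfl
theorem w6_re (x : ℝ) : w6 (x : ℂ) = ((Real.sin x * Real.sin (3 * lr - x) : ℝ) : ℂ) := by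
  unfold w6; rw [lam_lr]; push_cast; rfl
theorem w8_re (x : ℝ) : w8 (x : ℂ) = ((Real.sin (2 * lr - x) * Real.sin (3 * lr - x) : ℝ) : ℂ) := by
  unfold w8; rw [lam_lr]; push_cast; rfl
theorem w9_re (x : ℝ) : w9 (x : ℂ) = ((-(Real.sin x * Real.sin (lr - x)) : ℝ) : ℂ) := by
  unfold w9; rw [lam_lr]; push_cast; rfl

theorem s1_nn (x : ℝ) (h0 : 0 ≤ x) (h1 : x ≤ 8 * lr) : 0 ≤ Real.sin x :=
  Real.sin_nonneg_of_nonneg_of_le_pi h0 (by rw [← lr8]; exact h1)

theorem s1_pos (x : ℝ) (h0 : 0 < x) (h1 : x < 8 * lr) : 0 < Real.sin x :=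
  Real.sin_pos_of_pos_of_lt_pi h0 (by rw [← lr8]; exact h1)

/-- `sin (2 lam) ^ 2 = 1/2` -/
theorem s2_sq : Real.sin (2 * lr) ^ 2 = 1 / 2 := by
  have h : 2 * lr = Real.pi / 4 := by unfold lr; ring
  rw [h, Real.sin_pi_div_four, div_pow, Real.sq_sqrt (by norm_num)]
  norm_num

theorem s3_cos : Real.sin (3 * lr) = Real.cos lr := by
  have h : 3 * lr = Real.pi / 2 - lr := by unfold lr; ring
  rw [h, Real.sin_pi_div_two_sub]

theorem s1_cos : Real.sin lr * Real.cos lr = Real.sin (2 * lr) / 2 := by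
  rw [Real.sin_two_mul]; ring

/-- `sin (lam + w) sin (2 lam + w) + sin (2 lam - w) sin (3 lam - w) = cos lam` -/
theorem key_id (w : ℝ) : Real.sin (lr + w) * Real.sin (2 * lr + w) +
    Real.sin (2 * lr - w) * Real.sin (3 * lr - w) = Real.cos lr := by
  have h1 : Real.cos (lr) - Real.cos (3 * lr + 2 * w) = 2 * (Real.sin (lr + w) * Real.sin (2 * lr + w)) := by
    have := Real.cos_sub_cos lr (3 * lr + 2 * w)
    rw [this, show (lr + (3 * lr + 2 * w)) / 2 = 2 * lr + w by ring,
      show (lr - (3 * lr + 2 * w)) / 2 = -(lr + w) by ring, Real.sin_neg]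
    ring
  have h2 : Real.cos (lr) - Real.cos (5 * lr - 2 * w) = 2 * (Real.sin (2 * lr - w) * Real.sin (3 * lr - w)) := by
    have := Real.cos_sub_cos lr (5 * lr - 2 * w)
    rw [this, show (lr + (5 * lr - 2 * w)) / 2 = 3 * lr - w by ring,
      show (lr - (5 * lr - 2 * w)) / 2 = -(2 * lr - w) by ring, Real.sin_neg]
    ring
  have h3 : Real.cos (5 * lr - 2 * w) = - Real.cos (3 * lr + 2 * w) := by
    rw [show 5 * lr - 2 * w = Real.pi - (3 * lr + 2 * w) by rw [← lr8]; ring, Real.cos_pi_sub]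
  linarith

theorem sin_le {w : ℝ} (h0 : 0 ≤ w) (h1 : w ≤ lr) : Real.sin w ^ 2 ≤ Real.sin (2 * lr) ^ 2 := by
  have hp := lr8
  have hl := lr_pos
  have h2 : Real.sin w ≤ Real.sin (2 * lr) :=
    Real.sin_le_sin_of_le_of_le_pi_div_two (by linarith) (by linarith) (by linarith)
  exact pow_le_pow_left₀ (s1_nn w h0 (by linarith)) h2 2

theorem wF {w : ℝ} (h0 : 0 ≤ w) (h1 : w ≤ lr) : WF w := by
  have hl := lr_pos
  have e : lam - (w : ℂ) = ((lr - w : ℝ) : ℂ) := by rw [lam_lr]; push_cast; rfl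
  have eA : Real.sin (3 * lr - (lr - w)) = Real.sin (2 * lr + w) := by congr 1; ring
  have eB : Real.sin (2 * lr - (lr - w)) = Real.sin (lr + w) := by congr 1; ring
  have eC : Real.sin (lr - (lr - w)) = Real.sin w := by congr 1; ring
  have eD : Real.sin (3 * lr - lr) = Real.sin (2 * lr) := by congr 1; ring
  have eE : Real.sin (2 * lr - lr) = Real.sin lr := by congr 1; ring
  have eF : Real.sin (lr - lr) = 0 := by rw [sub_self, Real.sin_zero]
  have eG : Real.sin (2 * lr + lr) = Real.cos lr := by rw [show 2 * lr + lr = 3 * lr by ring, s3_cos]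
  have eH : Real.sin (3 * lr + lr) = 1 := by
    rw [show 3 * lr + lr = Real.pi / 2 by unfold lr; ring, Real.sin_pi_div_two]
  have p1 : 0 ≤ Real.sin w := s1_nn w h0 (by linarith)
  have p2 : 0 ≤ Real.sin (lr - w) := s1_nn _ (by linarith) (by linarith)
  have p3 : 0 ≤ Real.sin (2 * lr + w) := s1_nn _ (by linarith) (by linarith)
  have p4 : 0 ≤ Real.sin (3 * lr - w) := s1_nn _ (by linarith) (by linarith)
  have p5 : 0 ≤ Real.sin (2 * lr - w) := s1_nn _ (by linarith) (by linarith)
  have p6 : 0 ≤ Real.sin (lr + w) := s1_nn _ (by linarith) (by linarith)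
  have p7 : 0 ≤ Real.sin (2 * lr) := s1_nn _ (by linarith) (by linarith)
  have p8 : 0 ≤ Real.sin lr := s1_nn _ (by linarith) (by linarith)
  have p9 : 0 ≤ Real.sin (3 * lr + w) := s1_nn _ (by linarith) (by linarith)
  have p10 : 0 ≤ Real.sin (2 * lr + (lr - w)) := s1_nn _ (by linarith) (by linarith)
  have p11 : 0 ≤ Real.sin (3 * lr + (lr - w)) := s1_nn _ (by linarith) (by linarith)
  have p12 : 0 ≤ Real.cos lr := by rw [← s3_cos]; exact s1_nn _ (by linarith) (by linarith)
  have q1 : 0 ≤ Real.sin (2 * lr) ^ 2 - Real.sin w ^ 2 := sub_nonneg.2 (sin_le h0 h1)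
  have q2 : 0 ≤ Real.sin (2 * lr) ^ 2 - Real.sin (lr - w) ^ 2 := sub_nonneg.2 (sin_le (by linarith) (by linarith))
  have k := key_id w
  have ss := s2_sq
  have sc := s1_cos
  have ak : kk (lam - (w : ℂ)) = ((Real.sin (2 * lr + (lr - w)) * Real.sin (3 * lr + (lr - w)) : ℝ) : ℂ) := by
    rw [e, kk_re]
  have a2 : w2 (lam - (w : ℂ)) = ((Real.sin (2 * lr) * Real.sin (2 * lr + w) : ℝ) : ℂ) := by rw [e, w2_re, eA]
  have a4 : w4 (lam - (w : ℂ)) = ((Real.sin (2 * lr) * Real.sin (lr - w) : ℝ) : ℂ) := by rw [e, w4_re]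
  have a6 : w6 (lam - (w : ℂ)) = ((Real.sin (lr - w) * Real.sin (2 * lr + w) : ℝ) : ℂ) := by rw [e, w6_re, eA]
  have a8 : w8 (lam - (w : ℂ)) = ((Real.sin (lr + w) * Real.sin (2 * lr + w) : ℝ) : ℂ) := by rw [e, w8_re, eA, eB]
  have a9 : w9 (lam - (w : ℂ)) = ((-(Real.sin (lr - w) * Real.sin w) : ℝ) : ℂ) := by rw [e, w9_re, eC]
  have bk : kk lam = ((Real.cos lr : ℝ) : ℂ) := by rw [lam_lr, kk_re, eG, eH, mul_one]
  have b2 : w2 lam = ((Real.sin (2 * lr) * Real.sin (2 * lr) : ℝ) : ℂ) := by rw [lam_lr, w2_re, eD]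
  have b4 : w4 lam = ((Real.sin (2 * lr) * Real.sin lr : ℝ) : ℂ) := by rw [lam_lr, w4_re]
  have b6 : w6 lam = ((Real.sin (2 * lr) * Real.sin lr : ℝ) : ℂ) := by rw [lam_lr, w6_re, eD, mul_comm]
  have b8 : w8 lam = ((Real.sin (2 * lr) * Real.sin lr : ℝ) : ℂ) := by rw [lam_lr, w8_re, eD, eE, mul_comm]
  have b9 : w9 lam = ((0 : ℝ) : ℂ) := by rw [lam_lr, w9_re, eF, mul_zero, neg_zero]
  have ck := kk_re w
  have c2 := w2_re w
  have c4 := w4_re w
  have c6 := w6_re w
  have c8 := w8_re w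
  have c9 := w9_re w
  have k' := congrArg (fun x => x * Real.sin lr) k
  constructor
  all_goals simp only [ak, a2, a4, a6, a8, a9, bk, b2, b4, b6, b8, b9, ck, c2, c4, c6, c8, c9]
  all_goals norm_cast
  case E1 => ring
  case E1p => ring
  case E2 => ring
  case E2p => ring
  case E4 =>
    linear_combination (-(Real.sin (lr - w) * Real.sin w * Real.sin (2 * lr) * Real.sin lr)) * k -
      Real.sin (lr - w) * Real.sin w * Real.sin (2 * lr) * sc +
      Real.sin (lr - w) * Real.sin w * Real.sin (2 * lr) ^ 2 * ss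
  case E8 => linear_combination (-(Real.sin (2 * lr) ^ 2 * Real.sin (lr - w) * Real.sin w)) * k
  case E3 =>
    have h := mul_nonneg (mul_nonneg (mul_nonneg (mul_nonneg p7 p8) p2) p4) q1
    linarith
  case E3p =>
    have h := mul_nonneg (mul_nonneg (mul_nonneg (mul_nonneg p7 p8) p2) p4) q1
    linarith
  case E5 =>
    have h := mul_nonneg (mul_nonneg (mul_nonneg (mul_nonneg p7 p8) p3) p1) q2
    linarith
  case E5p =>
    have h := mul_nonneg (mul_nonneg (mul_nonneg (mul_nonneg p7 p8) p3) p1) q2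
    linarith
  all_goals positivity

theorem wP {w : ℝ} (h0 : 0 < w) (h1 : w < lr) : WP w := by
  have hl := lr_pos
  have e : lam - (w : ℂ) = ((lr - w : ℝ) : ℂ) := by rw [lam_lr]; push_cast; rfl
  refine { wF h0.le h1.le with pAk := ?_, pA6 := ?_, pBk := ?_, pB6 := ?_, pCk := ?_, pC2 := ?_, pC8 := ?_ }
  · rw [e, kk_re, Complex.zero_lt_real]
    exact mul_pos (s1_pos _ (by linarith) (by linarith)) (s1_pos _ (by linarith) (by linarith))
  · rw [e, w6_re, Complex.zero_lt_real]
    exact mul_pos (s1_pos _ (by linarith) (by linarith)) (s1_pos _ (by linarith) (by linarith))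
  · rw [lam_lr, kk_re, Complex.zero_lt_real]
    exact mul_pos (s1_pos _ (by linarith) (by linarith)) (s1_pos _ (by linarith) (by linarith))
  · rw [lam_lr, w6_re, Complex.zero_lt_real]
    exact mul_pos (s1_pos _ (by linarith) (by linarith)) (s1_pos _ (by linarith) (by linarith))
  · rw [kk_re, Complex.zero_lt_real]
    exact mul_pos (s1_pos _ (by linarith) (by linarith)) (s1_pos _ (by linarith) (by linarith))
  · rw [w2_re, Complex.zero_lt_real]
    exact mul_pos (s1_pos _ (by linarith) (by linarith)) (s1_pos _ (by linarith) (by linarith))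
  · rw [w8_re, Complex.zero_lt_real]
    exact mul_pos (s1_pos _ (by linarith) (by linarith)) (s1_pos _ (by linarith) (by linarith))

/-! ### transport -/

section

variable {α ι : Type*} [DecidableEq α] [DecidableEq ι]

theorem TriAt.of_map {w : ℝ} {p q r : α} {ν : St α} (hν : TriAt w p q r ν) (f : α → ι) (hf : Injective f)
    (m : St ι) (hm : ∀ a, m (f a) = f (ν a)) : TriAt w (f p) (f q) (f r) m := by
  intro F hF
  have h : Stab f m := fun a => ⟨_, hm a⟩
  have h1 := hν (fun μ => F (Phi f hf m h μ)) (fun μ => hF _)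
  have h2 := Rt_Phi3 hf h p q p r q r (lam - (w : ℂ)) lam (w : ℂ) F ν
  rw [Phi_self hf h ν hm] at h2
  rw [h2]
  refine ⟨h1.1, fun hw hp hs => h1.2 hw (hf (by rw [← hm, hp])) ?_⟩
  have h3 := Phi_sw hf h q r ν
  rw [Phi_self hf h ν hm] at h3
  rwa [h3]

theorem tri_all {w : ℝ} (L : WF w) {p q r : ι} (hpq : p ≠ q) (hpr : p ≠ r) (hqr : q ≠ r) (m : St ι) :
    TriAt w p q r m := by
  by_cases hp : m p = p
  · have hpmq := m.ne_of_fix hp hpq
    have hpmr := m.ne_of_fix hp hpr
    by_cases hq : m q = q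
    · have hqmr := m.ne_of_fix hq hqr
      by_cases hr : m r = r
      · exact (u3_012 L).of_map ![p, q, r] (inj3 hpq hpr hqr) m
          (by intro a; fin_cases a <;> simp [s3_012, hp, hq, hr])
      · exact (u4_0132 L).of_map ![p, q, r, m r] (inj4 hpq hpr hqr hpmr hqmr (Ne.symm hr)) m
          (by intro a; fin_cases a <;> simp [s4_0132, hp, hq])
    · by_cases hqr' : m q = r
      · have hrq : m r = q := by rw [← hqr']; simp
        exact (u3_021 L).of_map ![p, q, r] (inj3 hpq hpr hqr) m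
          (by intro a; fin_cases a <;> simp [s3_021, hp, hqr', hrq])
      · by_cases hr : m r = r
        · exact (u4_0321 L).of_map ![p, q, r, m q] (inj4 hpq hpr hqr hpmq (Ne.symm hq) (Ne.symm hqr')) m
            (by intro a; fin_cases a <;> simp [s4_0321, hp, hr])
        · exact (u5_03412 L).of_map ![p, q, r, m q, m r] (inj5 hpq hpr hqr hpmq (Ne.symm hq)
            (Ne.symm hqr') hpmr (Ne.symm (m.ne_symm hqr')) (Ne.symm hr)
            (fun h => hqr (m.inj h))) m
            (by intro a; fin_cases a <;> simp [s5_03412, hp])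
  · by_cases hpq' : m p = q
    · have hqp : m q = p := by rw [← hpq']; simp
      by_cases hr : m r = r
      · exact (u3_102 L).of_map ![p, q, r] (inj3 hpq hpr hqr) m
          (by intro a; fin_cases a <;> simp [s3_102, hpq', hqp, hr])
      · exact (u4_1032 L).of_map ![p, q, r, m r] (inj4 hpq hpr hqr
          (fun h => hqr (m.inj (hqp.trans h))) (fun h => hpr (m.inj (hpq'.trans h)))
          (Ne.symm hr)) m
          (by intro a; fin_cases a <;> simp [s4_1032, hpq', hqp])
    · by_cases hpr' : m p = r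
      · have hrp : m r = p := by rw [← hpr']; simp
        by_cases hq : m q = q
        · exact (u3_210 L).of_map ![p, q, r] (inj3 hpq hpr hqr) m
            (by intro a; fin_cases a <;> simp [s3_210, hpr', hrp, hq])
        · exact (u4_2301 L).of_map ![p, q, r, m q] (inj4 hpq hpr hqr
            (fun h => hqr.symm (m.inj (hrp.trans h))) (Ne.symm hq)
            (fun h => hpq (m.inj (hpr'.trans h)))) m
            (by intro a; fin_cases a <;> simp [s4_2301, hpr', hrp])
      · by_cases hq : m q = q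
        · by_cases hr : m r = r
          · exact (u4_3120 L).of_map ![p, q, r, m p] (inj4 hpq hpr hqr (Ne.symm hp) (Ne.symm hpq')
              (Ne.symm hpr')) m
              (by intro a; fin_cases a <;> simp [s4_3120, hq, hr])
          · exact (u5_31402 L).of_map ![p, q, r, m p, m r] (inj5 hpq hpr hqr (Ne.symm hp)
              (Ne.symm hpq') (Ne.symm hpr') (Ne.symm (m.ne_symm hpr')) (m.ne_of_fix hq hqr)
              (Ne.symm hr) (fun h => hpr (m.inj h))) m
              (by intro a; fin_cases a <;> simp [s5_31402, hq])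
        · by_cases hqr' : m q = r
          · have hrq : m r = q := by rw [← hqr']; simp
            exact (u4_3210 L).of_map ![p, q, r, m p] (inj4 hpq hpr hqr (Ne.symm hp) (Ne.symm hpq')
              (Ne.symm hpr')) m
              (by intro a; fin_cases a <;> simp [s4_3210, hqr', hrq])
          · by_cases hr : m r = r
            · exact (u5_34201 L).of_map ![p, q, r, m p, m q] (inj5 hpq hpr hqr (Ne.symm hp)
                (Ne.symm hpq') (Ne.symm hpr') (Ne.symm (m.ne_symm hpq')) (Ne.symm hq)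
                (Ne.symm hqr') (fun h => hpq (m.inj h))) m
                (by intro a; fin_cases a <;> simp [s5_34201, hr])
            · exact (u6_345012 L).of_map ![p, q, r, m p, m q, m r] (inj6 hpq hpr hqr (Ne.symm hp)
                (Ne.symm hpq') (Ne.symm hpr') (Ne.symm (m.ne_symm hpq')) (Ne.symm hq)
                (Ne.symm hqr') (fun h => hpq (m.inj h)) (Ne.symm (m.ne_symm hpr'))
                (Ne.symm (m.ne_symm hqr')) (Ne.symm hr) (fun h => hpr (m.inj h))
                (fun h => hqr (m.inj h))) m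
                (by intro a; fin_cases a <;> simp [s6_345012])

/-- **The triangle lemma.** -/
theorem tri_nonneg {w : ℝ} (h0 : 0 ≤ w) (h1 : w ≤ lr) {p q r : ι} (hpq : p ≠ q) (hpr : p ≠ r) (hqr : q ≠ r)
    {F : St ι → ℂ} (hF : ∀ m, 0 ≤ F m) (m : St ι) :
    0 ≤ Rt p q (lam - (w : ℂ)) (Rt p r lam (Rt q r (w : ℂ) F)) m :=
  (tri_all (wF h0 h1) hpq hpr hqr m F hF).1

/-- The identity (in position) is realised. -/
theorem tri_pos {w : ℝ} (h0 : 0 < w) (h1 : w < lr) {p q r : ι} (hpq : p ≠ q) (hpr : p ≠ r) (hqr : q ≠ r)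
    {F : St ι → ℂ} (hF : ∀ m, 0 ≤ F m) {m : St ι} (hp : m p = p) (hs : 0 < F (m.sw q r)) :
    0 < Rt p q (lam - (w : ℂ)) (Rt p r lam (Rt q r (w : ℂ) F)) m :=
  (tri_all (wF h0.le h1.le) hpq hpr hqr m F hF).2 (wP h0 h1) hp hs

end

end Pool.Agent.CYL
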